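import Mathlib
import Pool.Agent.Q77.Few.Limit

/-!
# How many digits have to be changed to make `π` normal in another base

Let `s ≥ 2`. Changing at most `log₂ log₂ n + 2` of the first `n` base-`s` digits, for all `n`, one
can make every real number (for instance `π`) normal in every base `b` which is not divisible by all
the prime divisors of `s`; for instance in base `10` if `s = 3`. The places which are changed can be
the same for all numbers of a given countable set. In the other bases at least a constant times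
`log n` changes can be necessary, and in all bases the number of changes cannot grow too slowly.

The upper bound is a case of a theorem on random digits: if, given all digits from the place `n` on,
the number formed by the first `n` digits takes every value with probability at most `p n`, and
`∑ p n < ∞`, then almost surely the number is normal in every base coprime to `s`.

Proof: by orthogonality `∑ k < q ^ n, |∑ m < N, e(h b^m (x + k/q^n))|² ≤ C |h| N²` for `N ≥ q ^ n`,
`gcd(b, q) = 1`, uniformly in `x`; so for given later digits boundedly many values of the first `n`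
digits are bad at `N`. Borel-Cantelli along geometric sequences of `N`.
-/

set_option autoImplicit false

open Finset Filter Topology MeasureTheory
open scoped ENNReal

namespace Pool.Agent.Results.MP_57632f_nt.FewDigitChanges

/-- the digit of `x` in base `s` at the place `i` after the point, `i = 0, 1, …` -/
noncomputable def dig (s : ℕ) (x : ℝ) (i : ℕ) : ℤ := ⌊x * (s : ℝ) ^ (i + 1)⌋ % s

/-- `y` is normal in base `b` (for `y = π`, `b = 10` this is Q1) -/
def Normal (b : ℕ) (y : ℝ) : Prop :=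
  ∀ k : ℕ, 0 < k → ∀ w : Fin k → Fin b,
    Tendsto (fun n : ℕ => (((range n).filter (fun i : ℕ => ∀ j : Fin k,
      ⌊y * (b : ℝ) ^ (i + 1 + (j : ℕ))⌋ % b = ((w j : ℕ) : ℤ))).card : ℝ) / n)
      atTop (𝓝 (1 / (b : ℝ) ^ k))

/-- the integer formed by the first `n` digits -/
def first (s : ℕ) (d : ℕ → Fin s) : ℕ → ℕ
  | 0 => 0
  | n + 1 => s * first s d n + d n

lemma first_eq (s : ℕ) (d : ℕ → Fin s) (n : ℕ) : first s d n = Pool.Agent.Q77.Few.head s d n := by
  induction n with
  | zero => rfl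
  | succ n ih => rw [first, Pool.Agent.Q77.Few.head, ih]

/-- **Few digit changes.** -/
theorem result :
    -- (1) `log₂ log₂ n + 2` changes suffice, at common places for countably many numbers
    (∀ s : ℕ, 2 ≤ s → ∀ X : Set ℝ, X.Countable → ∃ A : Set ℕ,
      (∀ n : ℕ, {i : ℕ | i < n ∧ i ∈ A}.ncard ≤ Nat.log 2 (Nat.log 2 n) + 2) ∧
      ∀ x ∈ X, ∃ y : ℝ, ⌊y⌋ = ⌊x⌋ ∧
        (∀ i : ℕ, (i ∈ A → |dig s y i - dig s x i| = 1) ∧ (i ∉ A → dig s y i = dig s x i)) ∧
        ∀ b : ℕ, 2 ≤ b → (∃ p : ℕ, p.Prime ∧ p ∣ s ∧ ¬ p ∣ b) → Normal b y) ∧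
    -- (2) in the other bases a constant times `log n` changes of the digits of `0` are necessary
    (∀ s b : ℕ, 2 ≤ s → 2 ≤ b → (∀ p : ℕ, p.Prime → p ∣ s → p ∣ b) → ∃ L : ℕ, 2 ≤ L ∧
      ∀ y : ℝ, (∃ᶠ n : ℕ in atTop, 2 * {i : ℕ | i < n ∧ dig s y i ≠ 0}.ncard ≤ Nat.log L n) →
        ¬ Normal b y) ∧
    -- (3) in every base the changes cannot be too rare
    (∀ s b : ℕ, 2 ≤ s → 2 ≤ b → ∃ x : ℝ, ∀ y : ℝ,
      (∃ᶠ n : ℕ in atTop, ∀ i, n ≤ i → i < (2 * b) ^ (4 * s ^ n) → dig s y i = dig s x i) →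
        ¬ Normal b y) ∧
    -- (4) random digits
    (∀ s Q : ℕ, 2 ≤ s → 2 ≤ Q → Q ∣ s → Q.Coprime (s / Q) →
      ∀ (μ : Measure (ℕ → Fin s)) (p : ℕ → ℝ≥0∞), IsProbabilityMeasure μ → ∑' n, p n ≠ ∞ →
      (∀ (n r : ℕ) (T : Set (ℕ → Fin s)), MeasurableSet T →
        μ {d | first s d n ≡ r [MOD Q ^ n] ∧ (fun i => d (i + n)) ∈ T} ≤
          p n * μ {d | (fun i => d (i + n)) ∈ T}) →
      ∀ᵐ d ∂μ, ∀ b : ℕ, 2 ≤ b → b.Coprime Q → Normal b (Real.ofDigits d)) ∧
    -- (5) independent random digits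
    (∀ s Q : ℕ, 2 ≤ s → 2 ≤ Q → Q ∣ s → Q.Coprime (s / Q) →
      ∀ ν : ℕ → Measure (Fin s), ∀ _ : ∀ i, IsProbabilityMeasure (ν i),
      ∑' n, ∏ i ∈ range n, (⨆ r : ℕ, ν i {a : Fin s | (a : ℕ) ≡ r [MOD Q]}) ≠ ∞ →
      ∀ᵐ d ∂(Measure.infinitePi ν), ∀ b : ℕ, 2 ≤ b → b.Coprime Q →
        Normal b (Real.ofDigits d)) := by
  refine ⟨?_, ?_, ?_, ?_, ?_⟩
  · exact fun s hs X hX => Pool.Agent.Q77.Few.changes s hs X hX
  · exact fun s b hs hb hp => Pool.Agent.Q77.Few.limit_count s b hs hb hp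
  · exact fun s b hs hb => Pool.Agent.Q77.Few.limit s b hs hb
  · intro s Q hs hQ hQs hcop μ p hμ hsum hsp
    have h1 : Pool.Agent.Q77.Few.SpreadMod s Q μ p := by
      intro n r T hT
      have h2 := hsp n r T hT
      simp only [first_eq] at h2
      exact h2
    filter_upwards [Pool.Agent.Q77.Few.ae_mod s hs Q hQ hQs μ p h1 hsum] with d hd b hb hbQ
    exact Pool.Agent.Q77.Few.normal_of_weyl b hb _ (hd b hb hbQ)
  · intro s Q hs hQ hQs hcop ν hν hsum
    have h1 := Pool.Agent.Q77.Few.spread_pi s Q (by omega) hQs hcop ν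
    filter_upwards [Pool.Agent.Q77.Few.ae_mod s hs Q hQ hQs _ _ h1 hsum] with d hd b hb hbQ
    exact Pool.Agent.Q77.Few.normal_of_weyl b hb _ (hd b hb hbQ)

end Pool.Agent.Results.MP_57632f_nt.FewDigitChanges
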