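import Pool.Agent.Q241.CH.Digits

set_option autoImplicit false

/-!
# Which orders of digit correlations decide normality

For a set `K` of orders: the vanishing of the correlations of the orders in `K` of the digits of a real number in
base `b` implies normality in base `b` exactly when `K` satisfies a condition of Müntz type.
-/

open Filter Topology

namespace Pool.Agent.Results.MP_57632f_nt.OrdersThatSuffice

/-- the digit of `x` in base `b` at the place `i + 1` after the point -/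
noncomputable def digit (b : ℕ) (x : ℝ) (i : ℕ) : ℤ := ⌊x * (b : ℝ) ^ (i + 1)⌋ % (b : ℤ)

/-- normality in base `b` -/
def Normal (b : ℕ) (x : ℝ) : Prop :=
  ∀ k : ℕ, 0 < k → ∀ w : Fin k → Fin b,
    Tendsto (fun n : ℕ => (((Finset.range n).filter
      (fun i : ℕ => ∀ j : Fin k, digit b x (i + (j : ℕ)) = (((w j : ℕ)) : ℤ))).card : ℝ) / (n : ℝ))
      atTop (𝓝 ((1 : ℝ) / (b : ℝ) ^ k))

/-- All the correlations of order `k` of the digits vanish: for `k` distinct shifts `s i` and integers `c i` not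
divisible by `b`, the mean value of `exp (2 π i (c_1 d(n + s_1) + ... + c_k d(n + s_k)) / b)` is zero. -/
def Order (b : ℕ) (x : ℝ) (k : ℕ) : Prop :=
  ∀ (s : Fin k → ℕ) (c : Fin k → ℤ), Function.Injective s → (∀ i, ¬ (b : ℤ) ∣ c i) →
    Tendsto (fun N : ℕ => (∑ n ∈ Finset.range N,
      Complex.exp (2 * Real.pi * Complex.I * ((∑ i, c i * digit b x (n + s i) : ℤ) : ℂ) / (b : ℂ))) / (N : ℂ))
      atTop (𝓝 0)

/-- The condition: `m` is in `K`, or `K` contains a multiple of `2 * m`, or the sum of the inverses of the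
elements of `K` divisible by `m` diverges. -/
def Suffices (K : Set ℕ) (m : ℕ) : Prop :=
  m ∈ K ∨ (∃ k ∈ K, 2 * m ∣ k) ∨ ¬ Summable (fun k : {k : ℕ // k ∈ K ∧ m ∣ k} => 1 / ((k : ℕ) : ℝ))

section

variable {b : ℕ} [NeZero b]

omit [NeZero b] in
lemma cast_digit (x : ℝ) (i : ℕ) : ((digit b x i : ℤ) : ZMod b) = ((⌊x * (b : ℝ) ^ (i + 1)⌋ : ℤ) : ZMod b) := by
  unfold digit
  rw [ZMod.intCast_mod]

lemma exp_eq (x : ℝ) {k : ℕ} (s : Fin k → ℕ) (c : Fin k → ℤ) (n : ℕ) :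
    Complex.exp (2 * Real.pi * Complex.I * ((∑ i, c i * digit b x (n + s i) : ℤ) : ℂ) / (b : ℂ)) =
      ∏ i, Q241CH.chi (c i : ZMod b) ((⌊x * (b : ℝ) ^ (n + s i + 1)⌋ : ℤ) : ZMod b) := by
  rw [← ZMod.stdAddChar_coe]
  have h : ∀ S : Finset (Fin k), (ZMod.stdAddChar (((∑ i ∈ S, c i * digit b x (n + s i) : ℤ)) : ZMod b) : ℂ) =
      ∏ i ∈ S, Q241CH.chi (c i : ZMod b) ((⌊x * (b : ℝ) ^ (n + s i + 1)⌋ : ℤ) : ZMod b) := by
    classical
    intro S
    induction S using Finset.induction_on with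
    | empty => simp
    | insert a S ha ih =>
      rw [Finset.sum_insert ha, Finset.prod_insert ha, Int.cast_add, AddChar.map_add_eq_mul, ih]
      congr 1
      unfold Q241CH.chi
      rw [Int.cast_mul, cast_digit]
  exact h Finset.univ

lemma order_iff (x : ℝ) (k : ℕ) :
    Order b x k ↔ Q241CH.OrdZ (fun i => ((⌊x * (b : ℝ) ^ (i + 1)⌋ : ℤ) : ZMod b)) k := by
  constructor
  · intro h s c hs hc
    have h1 := h s (fun i => ((c i).val : ℤ)) hs (fun i hi => by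
      apply hc i
      have h2 := (ZMod.intCast_zmod_eq_zero_iff_dvd ((c i).val : ℤ) b).2 hi
      rwa [Int.cast_natCast, ZMod.natCast_zmod_val] at h2)
    refine h1.congr fun N => ?_
    congr 1
    refine Finset.sum_congr rfl fun n _ => ?_
    rw [exp_eq]
    refine Finset.prod_congr rfl fun i _ => ?_
    rw [Int.cast_natCast, ZMod.natCast_zmod_val]
  · intro h s c hs hc
    have h1 := h s (fun i => (c i : ZMod b)) hs (fun i hi =>
      hc i ((ZMod.intCast_zmod_eq_zero_iff_dvd (c i) b).1 hi))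
    refine h1.congr fun N => ?_
    congr 1
    exact Finset.sum_congr rfl fun n _ => (exp_eq x s c n).symm

omit [NeZero b] in
lemma digit_eq_iff (x : ℝ) (i : ℕ) (w : Fin b) :
    digit b x i = ((w : ℕ) : ℤ) ↔ ((⌊x * (b : ℝ) ^ (i + 1)⌋ : ℤ) : ZMod b) = ((w : ℕ) : ZMod b) := by
  have h1 : (((w : ℕ) : ℤ) : ZMod b) = ((w : ℕ) : ZMod b) := Int.cast_natCast _
  rw [← h1, ZMod.intCast_eq_intCast_iff']
  unfold digit
  rw [Int.emod_eq_of_lt (a := ((w : ℕ) : ℤ)) (by positivity) (by exact_mod_cast w.2)]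

lemma normal_iff (x : ℝ) :
    Normal b x ↔ Q241CH.NormZ (fun i => ((⌊x * (b : ℝ) ^ (i + 1)⌋ : ℤ) : ZMod b)) := by
  constructor
  · intro h k w
    rcases Nat.eq_zero_or_pos k with h0 | hk
    · subst h0
      simp only [IsEmpty.forall_iff, Finset.filter_true, Finset.card_range, pow_zero, div_one]
      refine tendsto_const_nhds.congr' ?_
      filter_upwards [eventually_gt_atTop 0] with N hN
      rw [div_self (by exact_mod_cast hN.ne')]
    · refine (h k hk (fun j => ⟨(w j).val, ZMod.val_lt _⟩)).congr fun N => ?_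
      congr 3
      refine Finset.filter_congr fun n _ => forall_congr' fun j => ?_
      rw [digit_eq_iff]
      show _ = (((w j).val : ℕ) : ZMod b) ↔ _
      rw [ZMod.natCast_zmod_val]
  · intro h k _ w
    refine (h k (fun j => ((w j : ℕ) : ZMod b))).congr fun N => ?_
    congr 3
    refine Finset.filter_congr fun n _ => forall_congr' fun j => ?_
    rw [digit_eq_iff]

end

lemma suffices_mult (M : ℕ) (hM : 1 ≤ M) (m : ℕ) (hm : 1 ≤ m) : Suffices {k | 1 ≤ k ∧ M ∣ k} m :=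
  Or.inr (Or.inl ⟨2 * m * M, ⟨Nat.mul_pos (by omega) hM, Dvd.intro_left _ rfl⟩, Dvd.intro _ rfl⟩)

lemma suffices_fact (m : ℕ) (hm : 1 ≤ m) : Suffices {k | ∃ j : ℕ, 1 ≤ j ∧ k = 2 * j.factorial} m :=
  Or.inr (Or.inl ⟨2 * m.factorial, ⟨m, hm, rfl⟩, Nat.mul_dvd_mul_left 2 (Nat.dvd_factorial hm le_rfl)⟩)

/-- **Which orders decide normality.** -/
theorem result :
    -- the exact condition for one order
    (∀ b : ℕ, 2 ≤ b → ∀ K : Set ℕ, (∀ k ∈ K, 1 ≤ k) → ∀ m, 1 ≤ m →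
      (Suffices K m ↔ ∀ x : ℝ, (∀ k ∈ K, Order b x k) → Order b x m)) ∧
    -- the exact condition for normality
    (∀ b : ℕ, 2 ≤ b → ∀ K : Set ℕ, (∀ k ∈ K, 1 ≤ k) →
      ((∀ m, 1 ≤ m → Suffices K m) ↔ ∀ x : ℝ, (∀ k ∈ K, Order b x k) → Normal b x)) ∧
    -- the number `π` in base ten
    (∀ K : Set ℕ, (∀ k ∈ K, 1 ≤ k) → (∀ m, 1 ≤ m → Suffices K m) →
      (Normal 10 Real.pi ↔ ∀ k ∈ K, Order 10 Real.pi k)) ∧
    (∀ M : ℕ, 1 ≤ M → (Normal 10 Real.pi ↔ ∀ k, 1 ≤ k → M ∣ k → Order 10 Real.pi k)) ∧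
    (Normal 10 Real.pi ↔ ∀ j : ℕ, 1 ≤ j → Order 10 Real.pi (2 * j.factorial)) := by
  have hA : ∀ b : ℕ, 2 ≤ b → ∀ K : Set ℕ, (∀ k ∈ K, 1 ≤ k) → ∀ m, 1 ≤ m → Suffices K m →
      ∀ x : ℝ, (∀ k ∈ K, Order b x k) → Order b x m := by
    intro b hb K hK m hm hS x hx
    have : NeZero b := ⟨by omega⟩
    rw [order_iff]
    exact Q241CH.ordZ_of_suffices K hK m hm hS _ fun k hk => (order_iff x k).1 (hx k hk)
  have hB : ∀ b : ℕ, 2 ≤ b → ∀ K : Set ℕ, (∀ k ∈ K, 1 ≤ k) → ∀ m, 1 ≤ m → ¬ Suffices K m →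
      ∃ x : ℝ, (∀ k ∈ K, Order b x k) ∧ ¬ Order b x m := by
    intro b hb K hK m hm hS
    have : NeZero b := ⟨by omega⟩
    have : Fact (1 < b) := ⟨by omega⟩
    obtain ⟨y, hy, hym⟩ := Q241CH.exists_real_of_not_suffices hb K hK m hm hS
    refine ⟨y, fun k hk => (order_iff y k).2 (hy k hk), fun h => hym ?_⟩
    exact (order_iff y m).1 h (fun i => (i : ℕ)) (fun _ => 1) (fun i j hij => Fin.ext hij) (fun _ => one_ne_zero)
  have hN : ∀ b : ℕ, 2 ≤ b → ∀ x : ℝ, Normal b x ↔ ∀ k, 1 ≤ k → Order b x k := by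
    intro b hb x
    have : NeZero b := ⟨by omega⟩
    rw [normal_iff, Q241CH.norm_iff]
    exact forall_congr' fun k => forall_congr' fun _ => (order_iff x k).symm
  have hC : ∀ K : Set ℕ, (∀ k ∈ K, 1 ≤ k) → (∀ m, 1 ≤ m → Suffices K m) →
      (Normal 10 Real.pi ↔ ∀ k ∈ K, Order 10 Real.pi k) := by
    intro K hK hS
    rw [hN 10 (by norm_num)]
    exact ⟨fun h k hk => h k (hK k hk), fun h m hm => hA 10 (by norm_num) K hK m hm (hS m hm) _ h⟩
  refine ⟨fun b hb K hK m hm => ⟨fun hS => hA b hb K hK m hm hS, fun h => ?_⟩, fun b hb K hK => ⟨fun hS x hx => ?_,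
    fun h m hm => ?_⟩, hC, fun M hM => ?_, ?_⟩
  · by_contra hS
    obtain ⟨x, hx, hxm⟩ := hB b hb K hK m hm hS
    exact hxm (h x hx)
  · rw [hN b hb]
    exact fun m hm => hA b hb K hK m hm (hS m hm) x hx
  · by_contra hS
    obtain ⟨x, hx, hxm⟩ := hB b hb K hK m hm hS
    exact hxm ((hN b hb x).1 (h x hx) m hm)
  · rw [hC {k | 1 ≤ k ∧ M ∣ k} (fun k hk => hk.1) (fun m hm => suffices_mult M hM m hm)]
    exact ⟨fun h k h1 h2 => h k ⟨h1, h2⟩, fun h k hk => h k hk.1 hk.2⟩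
  · rw [hC {k | ∃ j : ℕ, 1 ≤ j ∧ k = 2 * j.factorial} (fun k ⟨j, _, hk⟩ => by
      rw [hk]; have := j.factorial_pos; omega) (fun m hm => suffices_fact m hm)]
    exact ⟨fun h j hj => h _ ⟨j, hj, rfl⟩, fun h k ⟨j, hj, hk⟩ => by rw [hk]; exact h j hj⟩

end Pool.Agent.Results.MP_57632f_nt.OrdersThatSuffice
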