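import Pool.Agent.Q138.PS.ZO
import Pool.Agent.H326R2.Pi.Top

/-!
# The digits of `π P(m)`, `P` an integer polynomial

Let `I` be the positive integers, or the primes of a reduced residue class.

(1) Every word stands infinitely often in the base `b` expansion of `F(m)` for all but few `m ≤ X` in `I`, for every real
polynomial `F` with an irrational coefficient.

(2), (3) Let `x = π`, or let `x` be any irrational number which is not a Liouville number. There is `C` such that for all real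
polynomials `F` with leading coefficient `s x`, `s ≠ 0` an integer (for instance `F = x P`): for all but few `m ≤ X` in `I` a
given word stands in the window of places from `v` to `C v` of `F(m)`, if `X |s| ≤ b ^ v`; and for almost all `m ≤ X` in `I`
each such window, `v ≤ exp (X ^ c)`, contains `κ log X` consecutive digits in which all words have the right frequency.
-/

set_option autoImplicit false

namespace Pool.Agent.Results.MP_57632f_nt.PolynomialMultiples

open Finset Filter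

/-- The word of `k` digits with value `W` (its digits are those of `W` in base `b`, with leading zeros) stands in the base `b`
expansion of `z` (that is of `z - ⌊z⌋`, behind the point) at the places `i + 1, …, i + k`. -/
def Stands (b k W : ℕ) (z : ℝ) (i : ℕ) : Prop := ⌊z * (b : ℝ) ^ (i + k)⌋ % ((b : ℤ) ^ k) = (W : ℤ)

/-- `I X` consists of the positive integers up to `X`, or of the primes up to `X` in a fixed reduced residue class. -/
def Index (I : ℕ → Finset ℕ) : Prop :=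
  (I = fun X => Ioc 0 X) ∨
    ∃ a q : ℕ, 1 ≤ q ∧ a.Coprime q ∧ I = fun X => (Ioc 0 X).filter fun p => p.Prime ∧ p ≡ a [MOD q]

/-- the number of `m` in `I X` with the property `p` -/
noncomputable def number (I : ℕ → Finset ℕ) (X : ℕ) (p : ℕ → Prop) : ℕ := {m : ℕ | m ∈ I X ∧ p m}.ncard

/-- `68 X (1 - b ^ (-k)) ^ ⌊κ log X / k⌋` -/
noncomputable def few (κ : ℝ) (b k X : ℕ) : ℝ := 68 * X * (1 - 1 / (b : ℝ) ^ k) ^ ⌊κ * Real.log X / k⌋₊

/-- (1) For the polynomials `F` with an irrational coefficient `F.coeff d`, `d ≥ 1`, whose higher coefficients have the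
denominator `Q`: each word stands infinitely often in `F(m)` for all but few `m ≤ X` in `I`. -/
def Often : Prop :=
  ∀ I : ℕ → Finset ℕ, Index I → ∀ b D Q : ℕ, 2 ≤ b → 1 ≤ Q →
    ∃ κ : ℝ, 0 < κ ∧ ∃ X₀ : ℕ, ∀ X : ℕ, X₀ ≤ X → ∀ (F : Polynomial ℝ) (d : ℕ), F.natDegree ≤ D → 1 ≤ d →
      Irrational (F.coeff d) → (∀ j, d < j → ∃ a : ℤ, (Q : ℝ) * F.coeff j = a) →
      ∀ k W : ℕ, 1 ≤ k → W < b ^ k →
        (number I X fun m => {i : ℕ | Stands b k W (F.eval (m : ℝ)) i}.Finite : ℝ) ≤ few κ b k X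

/-- `F` is a polynomial of positive degree at most `D` with leading coefficient `a`. -/
def IsPoly (D : ℕ) (a : ℝ) (F : Polynomial ℝ) : Prop := F.leadingCoeff = a ∧ 1 ≤ F.natDegree ∧ F.natDegree ≤ D

/-- (2) One word, one window. -/
def OneWindow (x : ℝ) (C : ℕ) : Prop :=
  ∀ I : ℕ → Finset ℕ, Index I → ∀ b D : ℕ, 2 ≤ b →
    ∃ κ : ℝ, 0 < κ ∧ ∃ X₀ : ℕ, ∀ X : ℕ, X₀ ≤ X → ∀ s : ℤ, s ≠ 0 → ∀ F : Polynomial ℝ, IsPoly D (x * s) F →
      ∀ v : ℕ, (X : ℝ) * |(s : ℝ)| ≤ (b : ℝ) ^ v → ∀ k W : ℕ, 1 ≤ k → W < b ^ k →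
        (number I X fun m => ¬ ∃ i, v ≤ i ∧ i + k ≤ C * v ∧ Stands b k W (F.eval (m : ℝ)) i : ℝ) ≤ few κ b k X

open Classical in
/-- Among the `L` digits of `z` after the `n`-th place all words of at most `w` digits have the right frequency, up to `E`, in
all subwindows. -/
def Block (b w : ℕ) (L E z : ℝ) (n : ℕ) : Prop :=
  ∀ k W s N : ℕ, 1 ≤ k → k ≤ w → W < b ^ k → (s : ℝ) + N ≤ L →
    |(((range N).filter fun i => Stands b k W z (n + s + i)).card : ℝ) - N / (b : ℝ) ^ k| ≤ E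

/-- (3) Normal blocks in all windows. -/
def Blocks (x : ℝ) (C : ℕ) : Prop :=
  ∀ I : ℕ → Finset ℕ, Index I → ∀ b D w : ℕ, 2 ≤ b → 1 ≤ w → ∀ ε : ℝ, 0 < ε →
    ∃ κ : ℝ, 0 < κ ∧ ∃ c : ℝ, 0 < c ∧ ∃ X₀ : ℕ, ∀ X : ℕ, X₀ ≤ X → ∀ s : ℤ, s ≠ 0 → ∃ n : ℕ → ℕ,
      (∀ v : ℕ, (X : ℝ) * |(s : ℝ)| ≤ (b : ℝ) ^ v → v ≤ n v ∧ (n v : ℝ) + κ * Real.log X ≤ C * v) ∧
      ∀ F : Polynomial ℝ, IsPoly D (x * s) F →
        (number I X fun m => ¬ ∀ v : ℕ, (X : ℝ) * |(s : ℝ)| ≤ (b : ℝ) ^ v → (v : ℝ) ≤ Real.exp ((X : ℝ) ^ c) →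
          Block b w (κ * Real.log X) (ε * (κ * Real.log X)) (F.eval (m : ℝ)) (n v) : ℝ) ≤ (X : ℝ) ^ (-c) * (I X).card

theorem index_weyl {I : ℕ → Finset ℕ} (h : Index I) : Pool.Agent.Q270.PX.WeylI I := by
  rcases h with rfl | ⟨a, q, hq, _, rfl⟩
  · exact Pool.Agent.Q270.PX.weylI_int
  · exact Pool.Agent.Q270.PX.weylI_PrA a q hq

theorem index_le {I : ℕ → Finset ℕ} (h : Index I) (X : ℕ) : (I X).card ≤ X := by
  rcases h with rfl | ⟨a, q, hq, _, rfl⟩
  · simp
  · exact (card_filter_le _ _).trans (by simp)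

theorem index_card {I : ℕ → Finset ℕ} (h : Index I) (ι : ℝ) (hι : 0 < ι) :
    ∀ᶠ N : ℕ in atTop, (N : ℝ) ^ (1 - ι) ≤ ((I N).card : ℝ) := by
  rcases h with rfl | ⟨a, q, hq, haq, rfl⟩
  · filter_upwards [eventually_ge_atTop 1] with N hN
    have hN1 : (1 : ℝ) ≤ N := by exact_mod_cast hN
    simp only [Nat.card_Ioc, Nat.sub_zero]
    calc (N : ℝ) ^ (1 - ι) ≤ (N : ℝ) ^ (1 : ℝ) := Real.rpow_le_rpow_of_exponent_le hN1 (by linarith)
      _ = N := Real.rpow_one _
  · exact Pool.Agent.Q270.SP.PrA_many a q hq haq ι hι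

theorem number_eq (I : ℕ → Finset ℕ) (X : ℕ) (p : ℕ → Prop) [DecidablePred p] : number I X p = ((I X).filter p).card := by
  unfold number
  rw [← Set.ncard_coe_finset]
  congr 1
  ext m
  simp

theorem number_le {I : ℕ → Finset ℕ} {X : ℕ} {p q : ℕ → Prop} (h : ∀ m, p m → q m) : number I X p ≤ number I X q := by
  unfold number
  refine Set.ncard_le_ncard (fun m hm => ⟨hm.1, h m hm.2⟩) ?_
  exact (I X).finite_toSet.subset fun m hm => hm.1

theorem often : Often := by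
  classical
  intro I hI b D Q hb hQ
  obtain ⟨κ, hκ, X₀, h⟩ := Pool.Agent.Q138.PS.PW.main (index_weyl hI) (index_le hI) b D Q hb hQ
  refine ⟨κ, hκ, X₀, ?_⟩
  intro X hX F d hdeg hd hirr hQF k W hk hW
  have h1 := h X hX F d hdeg hd hirr hQF k W hk hW
  rw [← number_eq] at h1
  exact le_trans (Nat.cast_le.2 (number_le fun m hm => hm)) h1

/-- `π` is not a Liouville number (from the exponent 6.05 of the starting library) -/
theorem pi_good : Irrational Real.pi ∧ ¬ Liouville Real.pi := by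
  refine ⟨irrational_pi, fun hL => ?_⟩
  obtain ⟨q₀, hq₀⟩ := Pool.Agent.H326R2.Pi.main
  obtain ⟨Q, ⟨a, hne, hlt⟩, hQ⟩ := ((hL.frequently_exists_num 7).and_eventually
    (eventually_ge_atTop (max q₀ 2))).exists
  have hQ0 : q₀ ≤ Q := (le_max_left _ _).trans hQ
  have hQ2 : 2 ≤ Q := (le_max_right _ _).trans hQ
  have hQR : (2 : ℝ) ≤ Q := by exact_mod_cast hQ2
  have hQpos : (0 : ℝ) < Q := by linarith
  have h1 := hq₀ Q hQ0 a
  have h2 : 1 / (Q : ℝ) ^ 7 ≤ (Q : ℝ) ^ (-(6.05 : ℝ)) := by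
    have e1 : 1 / (Q : ℝ) ^ 7 = (Q : ℝ) ^ (-(7 : ℝ)) := by
      rw [Real.rpow_neg hQpos.le, one_div]
      congr 1
      exact_mod_cast (Real.rpow_natCast (Q : ℝ) 7).symm
    rw [e1]
    exact Real.rpow_le_rpow_of_exponent_le (by linarith) (by norm_num)
  linarith

theorem windows {x : ℝ} (hx : Irrational x) (hL : ¬ Liouville x) : ∃ C : ℕ, OneWindow x C ∧ Blocks x C := by
  classical
  obtain ⟨p, hp⟩ := Pool.Agent.Q138.PS.PW.dio_of hx hL
  refine ⟨(2 * p + 2) ^ 2, ?_, ?_⟩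
  · intro I hI b D hb
    obtain ⟨κ, hκ, X₀, h⟩ := Pool.Agent.Q138.PS.PW.windows (index_weyl hI) (index_le hI) hp b D hb
    refine ⟨κ, hκ, X₀, ?_⟩
    intro X hX s hs F hF v hv k W hk hW
    have h1 := h X hX F s hs hF.1 hF.2.1 hF.2.2 v hv k W hk hW
    rw [← number_eq] at h1
    refine le_trans (Nat.cast_le.2 (number_le ?_)) h1
    intro m hm i hi hik ho
    refine hm ⟨i, hi, hik.trans ?_, ho⟩
    exact Nat.mul_le_mul_right v (Nat.le_self_pow (by norm_num) _)
  · intro I hI b D w hb hw ε hε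
    obtain ⟨κ, hκ, c, hc, X₀, h⟩ := Pool.Agent.Q138.PS.PW.normal_windows (index_weyl hI) (index_card hI) hp b D w hb hw hε
    refine ⟨κ, hκ, c, hc, X₀, ?_⟩
    intro X hX s hs
    obtain ⟨n, hn, h1⟩ := h X hX s hs
    refine ⟨n, fun v hv => ⟨(hn v hv).1, ?_⟩, ?_⟩
    · have := (hn v hv).2
      push_cast
      exact this
    intro F hF
    have h4 := h1 F hF.1 hF.2.1 hF.2.2
    rw [← number_eq] at h4
    refine le_trans (Nat.cast_le.2 (number_le ?_)) h4
    intro m hm hall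
    refine hm fun v hv1 hv2 => ?_
    intro k W s' N hk hkw hW hsN
    have h2 := hall v hv1 hv2 k W s' N hk hkw hW hsN
    refine le_trans (le_of_eq ?_) h2
    congr 2
    have h3 : ((range N).filter fun i => Stands b k W (F.eval (m : ℝ)) (n v + s' + i)) =
        ((range N).filter fun i : ℕ => ⌊F.eval (m : ℝ) * (b : ℝ) ^ n v * (b : ℝ) ^ (s' + i + k)⌋ % ((b : ℤ) ^ k) = (W : ℤ)) := by
      apply Finset.filter_congr
      intro i _
      unfold Stands
      have e1 : F.eval (m : ℝ) * (b : ℝ) ^ (n v + s' + i + k) = F.eval (m : ℝ) * (b : ℝ) ^ n v * (b : ℝ) ^ (s' + i + k) := by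
        rw [mul_assoc, ← pow_add]
        congr 2
        ring
      rw [e1]
    rw [h3]

/-- **The digits of polynomial multiples of `π`.** -/
theorem result : Often ∧ ∀ x : ℝ, x = Real.pi ∨ (Irrational x ∧ ¬ Liouville x) → ∃ C : ℕ, OneWindow x C ∧ Blocks x C := by
  refine ⟨often, ?_⟩
  rintro x (rfl | ⟨h1, h2⟩)
  · exact windows pi_good.1 pi_good.2
  · exact windows h1 h2

end Pool.Agent.Results.MP_57632f_nt.PolynomialMultiples
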