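import Pool.Agent.Q197.WD.Exist

/-!
# Which proportions of words decide normality

Let `k 0, k 1, ...` be lengths with `k (j + 1) ≥ 2 k j`. A real number is normal in base `b` if and
only if the proportions of the words of length `k j` which have asymptotically at least `1 - ε`
times their expected frequency have a divergent sum, for every `ε > 0`; and divergence of the sum
is the exact condition.
-/

set_option autoImplicit false

open Filter Topology

namespace Pool.Agent.Results.MP_57632f_nt.WordsThatSuffice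

/-- the digit of `x` in base `b` at the place `i + 1` after the point -/
noncomputable def digit (b : ℕ) (x : ℝ) (i : ℕ) : ℤ := ⌊x * (b : ℝ) ^ (i + 1)⌋ % (b : ℤ)

/-- the number of the `i < N` at which the word `w` stands in the expansion of `x` in base `b` -/
noncomputable def occ (b : ℕ) (x : ℝ) (N : ℕ) {k : ℕ} (w : Fin k → Fin b) : ℕ :=
  ((Finset.range N).filter
    (fun i : ℕ => ∀ j : Fin k, digit b x (i + (j : ℕ)) = (((w j : ℕ)) : ℤ))).card

/-- normality in base `b` -/
def Normal (b : ℕ) (x : ℝ) : Prop :=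
  ∀ k : ℕ, 0 < k → ∀ w : Fin k → Fin b,
    Tendsto (fun N : ℕ => (occ b x N w : ℝ) / (N : ℝ)) atTop (𝓝 ((1 : ℝ) / (b : ℝ) ^ k))

/-- The word has, up to every large place, at least `1 - ε` times its expected frequency. -/
def Frequent (b : ℕ) (x : ℝ) (ε : ℝ) {k : ℕ} (w : Fin k → Fin b) : Prop :=
  ∀ᶠ N : ℕ in atTop, (1 - ε) / (b : ℝ) ^ k ≤ (occ b x N w : ℝ) / (N : ℝ)

open Classical in
/-- the proportion of these words among all the words of length `k` -/
noncomputable def share (b : ℕ) (x : ℝ) (ε : ℝ) (k : ℕ) : ℝ :=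
  ((Finset.univ.filter fun w : Fin k → Fin b => Frequent b x ε w).card : ℝ) / (b : ℝ) ^ k

section

variable {b : ℕ} [NeZero b]

/-- the digits as a sequence -/
noncomputable def dig (b : ℕ) [NeZero b] (x : ℝ) (i : ℕ) : Fin b :=
  ⟨(digit b x i).toNat, by
    have h1 : (0 : ℤ) < b := by exact_mod_cast Nat.pos_of_ne_zero (NeZero.ne b)
    have h2 : digit b x i < b := Int.emod_lt_of_pos _ h1
    omega⟩

lemma dig_eq (x : ℝ) (i : ℕ) (d : Fin b) : dig b x i = d ↔ digit b x i = ((d : ℕ) : ℤ) := by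
  have h1 : (0 : ℤ) < b := by exact_mod_cast Nat.pos_of_ne_zero (NeZero.ne b)
  have h0 : 0 ≤ digit b x i := Int.emod_nonneg _ h1.ne'
  unfold dig
  rw [Fin.ext_iff]
  simp only
  omega

lemma occ_eq (x : ℝ) (N : ℕ) {k : ℕ} (w : Fin k → Fin b) :
    occ b x N w = Q197.WD.count (dig b x) N w := by
  unfold occ Q197.WD.count
  simp_rw [dig_eq]

lemma share_eq (x : ℝ) (ε : ℝ) (k : ℕ) :
    share b x ε k = Q197.WD.prop b k (fun w : Fin k → Fin b =>
      ∀ᶠ N : ℕ in atTop, (1 - ε) / (b : ℝ) ^ k ≤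
        (Q197.WD.count (dig b x) N w : ℝ) / N) := by
  have h : (fun w : Fin k → Fin b => Frequent b x ε w) = fun w : Fin k → Fin b =>
      ∀ᶠ N : ℕ in atTop, (1 - ε) / (b : ℝ) ^ k ≤ (Q197.WD.count (dig b x) N w : ℝ) / N := by
    funext w
    unfold Frequent
    simp_rw [occ_eq]
  have h2 : share b x ε k = Q197.WD.prop b k (fun w : Fin k → Fin b => Frequent b x ε w) := rfl
  rw [h2, h]

omit [NeZero b] in
lemma share_of_normal (hb : 2 ≤ b) {x : ℝ} (h : Normal b x) {ε : ℝ} (hε : 0 < ε) {k : ℕ}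
    (hk : 0 < k) : share b x ε k = 1 := by
  classical
  have hb0 : (0 : ℝ) < b := by
    have : (2 : ℝ) ≤ b := by exact_mod_cast hb
    linarith
  unfold share
  rw [Finset.filter_true_of_mem, Finset.card_univ, Fintype.card_fun, Fintype.card_fin,
    Fintype.card_fin]
  · push_cast
    field_simp
  · intro w _
    have h1 : (1 - ε) / (b : ℝ) ^ k < 1 / (b : ℝ) ^ k := by
      apply div_lt_div_of_pos_right _ (by positivity)
      linarith
    filter_upwards [(h k hk w).eventually_const_lt h1] with N hN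
    exact hN.le

lemma not_summable_one : ¬ Summable (fun _ : ℕ => (1 : ℝ)) := by
  rw [summable_const_iff]
  exact one_ne_zero

theorem criterion (hb : 2 ≤ b) (x : ℝ) (k : ℕ → ℕ) (hk0 : ∀ j, 0 < k j)
    (hk : ∀ j, 2 * k j ≤ k (j + 1)) :
    Normal b x ↔ ∀ ε : ℝ, 0 < ε → ¬ Summable (fun j => share b x ε (k j)) := by
  constructor
  · intro h ε hε hs
    apply not_summable_one
    refine hs.congr fun j => ?_
    exact share_of_normal hb h hε (hk0 j)
  · intro h
    by_contra hcon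
    unfold Normal at hcon
    push Not at hcon
    obtain ⟨m, _, w, hw⟩ := hcon
    have hw' : ¬ Tendsto (fun N : ℕ => (Q197.WD.count (dig b x) N w : ℝ) / N) atTop
        (𝓝 (1 / (b : ℝ) ^ m)) := by
      intro ht
      apply hw
      simp_rw [occ_eq]
      exact ht
    obtain ⟨ε, hε, h1⟩ := Q197.WD.seq_summable (dig b x) hw'
    apply h ε hε
    have h2 := h1 k hk0 hk
    refine h2.congr fun j => ?_
    rw [share_eq]

theorem sharp (hb : 2 ≤ b) (k : ℕ → ℕ) (hk0 : ∀ j, 0 < k j) (hk : StrictMono k) (c : ℕ → ℝ)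
    (hc0 : ∀ j, 0 ≤ c j) (hc : Summable c) :
    ∃ x : ℝ, ¬ Normal b x ∧ ∀ᶠ j in atTop, ∀ ε : ℝ, 0 < ε → c j ≤ share b x ε (k j) := by
  obtain ⟨a, ha0, ha1, ha2⟩ := Q197.WD.seq_sharp hb k hk0 hk c hc0 hc
  obtain ⟨y, hy⟩ := Q197.WD.exists_real hb a ha0
  have hdig : dig b y = a := by
    funext i
    rw [dig_eq]
    exact hy i
  refine ⟨y, ?_, ?_⟩
  · intro hN
    apply ha1
    have h1 := hN 3 (by norm_num) (fun _ => 0)
    simp_rw [occ_eq] at h1
    rw [hdig] at h1
    exact h1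
  · filter_upwards [ha2] with j hj ε hε
    rw [share_eq, hdig]
    exact hj ε hε

end

theorem result :
    -- the criterion
    (∀ b : ℕ, 2 ≤ b → ∀ (x : ℝ) (k : ℕ → ℕ), (∀ j, 0 < k j) → (∀ j, 2 * k j ≤ k (j + 1)) →
      (Normal b x ↔ ∀ ε : ℝ, 0 < ε → ¬ Summable (fun j => share b x ε (k j)))) ∧
    -- divergence is the exact condition on the proportions
    (∀ b : ℕ, 2 ≤ b → ∀ k : ℕ → ℕ, (∀ j, 0 < k j) → (∀ j, 2 * k j ≤ k (j + 1)) →
      ∀ c : ℕ → ℝ, (∀ j, 0 ≤ c j) →
        ((∀ x : ℝ, (∀ ε : ℝ, 0 < ε → ∀ᶠ j in atTop, c j ≤ share b x ε (k j)) → Normal b x) ↔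
          ¬ Summable c)) ∧
    -- every summable sequence of proportions is reached, along every sequence of lengths
    (∀ b : ℕ, 2 ≤ b → ∀ k : ℕ → ℕ, (∀ j, 0 < k j) → StrictMono k → ∀ c : ℕ → ℝ, (∀ j, 0 ≤ c j) →
      Summable c → ∃ x : ℝ, ¬ Normal b x ∧
        ∀ᶠ j in atTop, ∀ ε : ℝ, 0 < ε → c j ≤ share b x ε (k j)) ∧
    -- the number `π` in base `10`
    (∀ k : ℕ → ℕ, (∀ j, 0 < k j) → (∀ j, 2 * k j ≤ k (j + 1)) →
      (Normal 10 Real.pi ↔ ∀ ε : ℝ, 0 < ε → ¬ Summable (fun j => share 10 Real.pi ε (k j)))) := by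
  have hmono : ∀ k : ℕ → ℕ, (∀ j, 0 < k j) → (∀ j, 2 * k j ≤ k (j + 1)) → StrictMono k := by
    intro k h0 h1
    apply strictMono_nat_of_lt_succ
    intro j
    have := h0 j
    have := h1 j
    omega
  refine ⟨?_, ?_, ?_, ?_⟩
  · intro b hb x k hk0 hk
    have : NeZero b := ⟨by omega⟩
    exact criterion hb x k hk0 hk
  · intro b hb k hk0 hk c hc0
    have : NeZero b := ⟨by omega⟩
    constructor
    · intro h hs
      obtain ⟨x, hx1, hx2⟩ := sharp hb k hk0 (hmono k hk0 hk) c hc0 hs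
      apply hx1
      apply h x
      intro ε hε
      filter_upwards [hx2] with j hj
      exact hj ε hε
    · intro hs x hx
      rw [criterion hb x k hk0 hk]
      intro ε hε hsum
      apply hs
      obtain ⟨j0, hj0⟩ := eventually_atTop.1 (hx ε hε)
      rw [← summable_nat_add_iff j0]
      refine Summable.of_nonneg_of_le (fun j => hc0 _) (fun j => hj0 (j + j0) (by omega))
        ((summable_nat_add_iff j0).2 hsum)
  · intro b hb k hk0 hk c hc0 hc
    have : NeZero b := ⟨by omega⟩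
    exact sharp hb k hk0 hk c hc0 hc
  · intro k hk0 hk
    have : NeZero 10 := ⟨by omega⟩
    exact criterion (by norm_num) Real.pi k hk0 hk

end Pool.Agent.Results.MP_57632f_nt.WordsThatSuffice
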